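import Pool.Agent.U37.LC.Stm

/-!
# Project LC, job Spectral: the spectral measure of a vector
-/

set_option autoImplicit false

open MeasureTheory Filter Topology Complex
open scoped ComplexConjugate InnerProductSpace BoundedContinuousFunction CompactlySupported

namespace Pool.Agent.U607.LC

section
variable {H : Type} [NormedAddCommGroup H] [InnerProductSpace ℂ H] [CompleteSpace H]

theorem inner_self {S : H →L[ℂ] H} (hS : IsSelfAdjoint S) (x y : H) :
    ⟪S x, y⟫_ℂ = ⟪x, S y⟫_ℂ := by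
  rw [← ContinuousLinearMap.adjoint_inner_right, ← ContinuousLinearMap.star_eq_adjoint, hS.star_eq]

theorem sa_hom {G : H →L[ℂ] H} (hG : IsSelfAdjoint G) (g : C(spectrum ℝ G, ℝ)) :
    IsSelfAdjoint (cfcHom hG g) := by
  rw [IsSelfAdjoint, ← map_star]
  congr 1

/-- the functional -/
noncomputable def lam {G : H →L[ℂ] H} (hG : IsSelfAdjoint G) (f : H) :
    C_c(spectrum ℝ G, ℝ) →ₚ[ℝ] ℝ := PositiveLinearMap.mk₀
  { toFun := fun g => (⟪f, cfcHom hG g.toContinuousMap f⟫_ℂ).re
    map_add' := by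
      intro g h
      have : (g + h).toContinuousMap = g.toContinuousMap + h.toContinuousMap := rfl
      rw [this, map_add, _root_.add_apply, inner_add_right, add_re]
    map_smul' := by
      intro c g
      have : (c • g).toContinuousMap = c • g.toContinuousMap := rfl
      rw [this, map_smul, _root_.smul_apply, inner_smul_right_eq_smul]
      simp }
  (by
    intro g hg
    show 0 ≤ (⟪f, cfcHom hG g.toContinuousMap f⟫_ℂ).re
    have h1 : g.toContinuousMap = (⟨fun x => √(g x), by fun_prop⟩ : C(spectrum ℝ G, ℝ)) *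
        (⟨fun x => √(g x), by fun_prop⟩ : C(spectrum ℝ G, ℝ)) := by
      ext x
      exact (Real.mul_self_sqrt (hg x)).symm
    rw [h1, map_mul, mul_apply_eq_comp, ← inner_self (sa_hom hG _)]
    rw [inner_self_eq_norm_sq_to_K]
    norm_cast
    exact sq_nonneg _)

theorem inner_real {S : H →L[ℂ] H} (hS : IsSelfAdjoint S) (f : H) :
    (((⟪f, S f⟫_ℂ).re : ℝ) : ℂ) = ⟪f, S f⟫_ℂ := by
  rw [← conj_eq_iff_re, inner_conj_symm]
  exact inner_self hS f f

/-- the spectral measure of `f`, by the theorem of Riesz, Markov and Kakutani -/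
theorem exists_measure {G : H →L[ℂ] H} (hG : IsSelfAdjoint G) (f : H) :
    ∃ ν : Measure ℝ, IsFiniteMeasure ν ∧ ∀ g : ℝ → ℝ, Continuous g → Integrable g ν ∧
      ((∫ x, g x ∂ν : ℝ) : ℂ) = ⟪f, cfc g G f⟫_ℂ := by
  obtain ⟨m, hm⟩ : ∃ m : Measure (spectrum ℝ G), m = RealRMK.rieszMeasure (lam hG f) := ⟨_, rfl⟩
  have hfin : IsFiniteMeasure m := by
    rw [hm]
    infer_instance
  refine ⟨m.map Subtype.val, inferInstance, fun g hg => ?_⟩
  have hgc : Continuous fun x : spectrum ℝ G => g x := hg.comp continuous_subtype_val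
  have hem : MeasurableEmbedding (Subtype.val : spectrum ℝ G → ℝ) :=
    MeasurableEmbedding.subtype_coe (spectrum.isCompact G).measurableSet
  constructor
  · rw [hem.integrable_map_iff]
    exact (BoundedContinuousFunction.mkOfCompact (⟨_, hgc⟩ : C(spectrum ℝ G, ℝ))).integrable m
  · rw [hem.integral_map]
    have h1 := RealRMK.integral_rieszMeasure (lam hG f)
      (CompactlySupportedContinuousMap.continuousMapEquiv (⟨_, hgc⟩ : C(spectrum ℝ G, ℝ)))
    rw [← hm] at h1
    have h2 : ∫ x : spectrum ℝ G, g x ∂m = (⟪f, cfc g G f⟫_ℂ).re := by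
      rw [cfc_apply g G hG hg.continuousOn]
      exact h1
    rw [h2]
    exact inner_real (cfc_predicate g G) f

theorem mass {G : H →L[ℂ] H} (hG : IsSelfAdjoint G) (f : H) {ν : Measure ℝ} [IsFiniteMeasure ν]
    (h : ∀ g : ℝ → ℝ, Continuous g → Integrable g ν ∧
      ((∫ x, g x ∂ν : ℝ) : ℂ) = ⟪f, cfc g G f⟫_ℂ) : ν Set.univ = ENNReal.ofReal (‖f‖ ^ 2) := by
  have h1 := (h (fun _ => 1) continuous_const).2
  rw [cfc_const_one ℝ G] at h1
  have h2 : ⟪f, (1 : H →L[ℂ] H) f⟫_ℂ = ((‖f‖ ^ 2 : ℝ) : ℂ) := by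
    rw [one_apply_eq_self, inner_self_eq_norm_sq_to_K]
    norm_cast
  rw [h2] at h1
  have h3 : ∫ x : ℝ, (1 : ℝ) ∂ν = ‖f‖ ^ 2 := by exact_mod_cast h1
  rw [integral_const, smul_eq_mul, mul_one] at h3
  rw [← h3, Measure.real, ENNReal.ofReal_toReal (measure_ne_top _ _)]

/-- `(1 + n x ^ 2) ^ (-1/2)` -/
noncomputable def sn (n : ℕ) (x : ℝ) : ℝ := (√(1 + n * x ^ 2))⁻¹

theorem sn_cont (n : ℕ) : Continuous (sn n) := by
  unfold sn
  refine Continuous.inv₀ (by fun_prop) fun x => ?_
  have : 0 < 1 + (n : ℝ) * x ^ 2 := by positivity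
  exact (Real.sqrt_pos.2 this).ne'

theorem sn_nonneg (n : ℕ) (x : ℝ) : 0 ≤ sn n x := by
  unfold sn
  positivity

theorem sn_le (n : ℕ) (x : ℝ) : sn n x ≤ 1 := by
  unfold sn
  refine inv_le_one_of_one_le₀ ?_
  rw [Real.one_le_sqrt]
  have : 0 ≤ (n : ℝ) * x ^ 2 := by positivity
  linarith

theorem sn_mul_le {n : ℕ} (hn : 0 < n) (x : ℝ) : |sn n x * x| ≤ (√n)⁻¹ := by
  unfold sn
  have hn' : (0 : ℝ) < n := by exact_mod_cast hn
  have h1 : 0 < 1 + (n : ℝ) * x ^ 2 := by positivity
  rw [abs_mul, abs_of_nonneg (by positivity), inv_mul_le_iff₀ (Real.sqrt_pos.2 h1)]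
  rw [← div_eq_mul_inv, le_div_iff₀ (Real.sqrt_pos.2 hn')]
  refine Real.le_sqrt_of_sq_le ?_
  rw [mul_pow, sq_abs, Real.sq_sqrt hn'.le]
  linarith

theorem atom {G : H →L[ℂ] H} (hG : IsSelfAdjoint G) (hinj : ∀ x, G x = 0 → x = 0) (f : H)
    {ν : Measure ℝ} [IsFiniteMeasure ν]
    (h : ∀ g : ℝ → ℝ, Continuous g → Integrable g ν ∧
      ((∫ x, g x ∂ν : ℝ) : ℂ) = ⟪f, cfc g G f⟫_ℂ) : ν {0} = 0 := by
  -- the range is dense
  have hd : Dense (Set.range G) := by
    have h1 : (LinearMap.range (G : H →ₗ[ℂ] H)).topologicalClosure = ⊤ := by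
      rw [Submodule.topologicalClosure_eq_top_iff]
      rw [ContinuousLinearMap.orthogonal_range, ← ContinuousLinearMap.star_eq_adjoint, hG.star_eq,
        eq_bot_iff]
      intro x hx
      exact hinj x hx
    have h2 : closure (Set.range G) = Set.univ := by
      have := congrArg (fun K : Submodule ℂ H => (K : Set H)) h1
      rw [Submodule.topologicalClosure_coe] at this
      exact this
    exact dense_iff_closure_eq.2 h2
  have key : ∀ (y : H) (n : ℕ), 0 < n → ν.real {0} ≤ ((√n)⁻¹ * ‖y‖ + ‖f - G y‖) ^ 2 := by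
    intro y n hn
    have h1 := h (fun x => sn n x * sn n x) ((sn_cont n).mul (sn_cont n))
    rw [cfc_mul (sn n) (sn n) G (sn_cont n).continuousOn (sn_cont n).continuousOn,
      mul_apply_eq_comp, ← inner_self (cfc_predicate (sn n) G), inner_self_eq_norm_sq_to_K] at h1
    have h2 : ∫ x, sn n x * sn n x ∂ν = ‖cfc (sn n) G f‖ ^ 2 := by
      refine Complex.ofReal_injective (h1.2.trans ?_)
      push_cast
      rfl
    have h3 : ν.real {0} ≤ ∫ x, sn n x * sn n x ∂ν := by
      have h4 : ∫ x, Set.indicator {0} (fun _ => (1 : ℝ)) x ∂ν = ν.real {0} := by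
        rw [integral_indicator (measurableSet_singleton 0)]
        simp [Measure.real]
      rw [← h4]
      refine integral_mono ((integrable_const 1).indicator (measurableSet_singleton 0)) h1.1 ?_
      intro x
      by_cases hx : x = 0
      · subst hx
        simp [sn]
      · simp only [Set.indicator, Set.mem_singleton_iff, hx, if_false]
        exact mul_self_nonneg _
    refine h3.trans ?_
    rw [h2]
    refine pow_le_pow_left₀ (norm_nonneg _) ?_ 2
    have h5 : f = G y + (f - G y) := by abel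
    have h6 : ‖cfc (sn n) G‖ ≤ 1 := by
      refine norm_cfc_le zero_le_one fun x _ => ?_
      rw [Real.norm_eq_abs, abs_of_nonneg (sn_nonneg n x)]
      exact sn_le n x
    have h7 : ‖cfc (sn n) G * G‖ ≤ (√n)⁻¹ := by
      have e : cfc (sn n) G * G = cfc (fun x => sn n x * x) G := by
        rw [cfc_mul (sn n) (fun x => x) G (sn_cont n).continuousOn continuousOn_id, cfc_id' ℝ G]
      rw [e]
      exact norm_cfc_le (by positivity) fun x _ => sn_mul_le hn x
    calc ‖cfc (sn n) G f‖ = ‖(cfc (sn n) G * G) y + cfc (sn n) G (f - G y)‖ := by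
          conv_lhs => rw [h5]
          rw [map_add, mul_apply_eq_comp]
      _ ≤ ‖(cfc (sn n) G * G) y‖ + ‖cfc (sn n) G (f - G y)‖ := norm_add_le _ _
      _ ≤ (√n)⁻¹ * ‖y‖ + 1 * ‖f - G y‖ :=
          add_le_add (ContinuousLinearMap.le_of_opNorm_le _ h7 y)
            (ContinuousLinearMap.le_of_opNorm_le _ h6 _)
      _ = _ := by rw [one_mul]
  have h8 : ν.real {0} ≤ 0 := by
    refine le_of_forall_pos_le_add fun ε hε => ?_
    rw [zero_add]
    obtain ⟨δ, hδ0, hδ⟩ : ∃ δ : ℝ, 0 < δ ∧ (δ + δ) ^ 2 ≤ ε := by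
      refine ⟨√ε / 2, by positivity, ?_⟩
      rw [add_halves, Real.sq_sqrt hε.le]
    obtain ⟨_, ⟨y, rfl⟩, hy⟩ := hd.exists_dist_lt f hδ0
    rw [dist_eq_norm] at hy
    obtain ⟨N, hN⟩ := exists_nat_gt ((‖y‖ / δ) ^ 2)
    have hN0 : 0 < N := by
      rcases Nat.eq_zero_or_pos N with h0 | h0
      · rw [h0] at hN
        have : (0 : ℝ) ≤ (‖y‖ / δ) ^ 2 := sq_nonneg _
        exact absurd hN (by push_cast; linarith)
      · exact h0
    refine (key y N hN0).trans (le_trans (pow_le_pow_left₀ (by positivity) (add_le_add ?_ hy.le) 2) hδ)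
    have hs : 0 < √(N : ℝ) := Real.sqrt_pos.2 (by exact_mod_cast hN0)
    rw [inv_mul_le_iff₀ hs]
    have h9 : ‖y‖ / δ ≤ √(N : ℝ) := Real.le_sqrt_of_sq_le hN.le
    rw [div_le_iff₀ hδ0] at h9
    exact h9
  have h9 : ν.real {0} = 0 := le_antisymm h8 measureReal_nonneg
  exact (measureReal_eq_zero_iff (measure_ne_top _ _)).1 h9

/-- the denominator -/
noncomputable def dd (a b x : ℝ) : ℝ := (1 - a * x) ^ 2 + (b * x) ^ 2

theorem dd_pos {a b : ℝ} (hb : b ≠ 0) (x : ℝ) : 0 < dd a b x := by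
  unfold dd
  by_cases hx : x = 0
  · subst hx
    norm_num
  · have : 0 < (b * x) ^ 2 := by positivity
    positivity

noncomputable def h1 (a b x : ℝ) : ℝ := x * (1 - a * x) / dd a b x

noncomputable def h2 (a b x : ℝ) : ℝ := b * x ^ 2 / dd a b x

theorem dd_cont (a b : ℝ) : Continuous (dd a b) := by
  unfold dd
  fun_prop

theorem h1_cont {a b : ℝ} (hb : b ≠ 0) : Continuous (h1 a b) :=
  Continuous.div (by fun_prop) (dd_cont a b) fun x => (dd_pos hb x).ne'

theorem h2_cont {a b : ℝ} (hb : b ≠ 0) : Continuous (h2 a b) :=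
  Continuous.div (by fun_prop) (dd_cont a b) fun x => (dd_pos hb x).ne'

theorem e1 {a b : ℝ} (hb : b ≠ 0) (x : ℝ) : h1 a b x - a * (x * h1 a b x) + b * (x * h2 a b x) = x := by
  have := (dd_pos hb (a := a) x).ne'
  unfold h1 h2
  field_simp
  unfold dd
  ring

theorem e2 {a b : ℝ} (hb : b ≠ 0) (x : ℝ) : h2 a b x - a * (x * h2 a b x) - b * (x * h1 a b x) = 0 := by
  have := (dd_pos hb (a := a) x).ne'
  unfold h1 h2
  field_simp
  ring

theorem resolvent {G : H →L[ℂ] H} (hG : IsSelfAdjoint G) (f : H) (c : ℝ) (z : ℂ) (hz : z.im ≠ 0)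
    (u : H) (hu : u - (z + c) • G u = G f) :
    u = cfc (h1 (c + z.re) z.im) G f + I • cfc (h2 (c + z.re) z.im) G f := by
  obtain ⟨a, ha⟩ : ∃ a, a = c + z.re := ⟨_, rfl⟩
  obtain ⟨b, hb⟩ : ∃ b, b = z.im := ⟨_, rfl⟩
  have hb0 : b ≠ 0 := by rwa [hb]
  rw [← ha, ← hb]
  obtain ⟨A, hA⟩ : ∃ A, A = cfc (h1 a b) G := ⟨_, rfl⟩
  obtain ⟨B, hB⟩ : ∃ B, B = cfc (h2 a b) G := ⟨_, rfl⟩
  have c1 := h1_cont (a := a) hb0
  have c2 := h2_cont (a := a) hb0
  have g1 : cfc (fun x => x * h1 a b x) G = G * A := by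
    rw [cfc_mul (fun x => x) (h1 a b) G continuousOn_id c1.continuousOn, cfc_id' ℝ G, hA]
  have g2 : cfc (fun x => x * h2 a b x) G = G * B := by
    rw [cfc_mul (fun x => x) (h2 a b) G continuousOn_id c2.continuousOn, cfc_id' ℝ G, hB]
  have k1 : A - a • (G * A) + b • (G * B) = G := by
    have h3 : cfc (fun x => h1 a b x - a * (x * h1 a b x) + b * (x * h2 a b x)) G = G := by
      have : (fun x => h1 a b x - a * (x * h1 a b x) + b * (x * h2 a b x)) = fun x : ℝ => x :=
        funext (e1 hb0)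
      rw [this, cfc_id' ℝ G]
    rw [cfc_add G (fun x => h1 a b x - a * (x * h1 a b x)) (fun x => b * (x * h2 a b x))
      (by fun_prop) (by fun_prop), cfc_sub (h1 a b) (fun x => a * (x * h1 a b x)) G
      (by fun_prop) (by fun_prop), cfc_const_mul a (fun x => x * h1 a b x) G (by fun_prop),
      cfc_const_mul b (fun x => x * h2 a b x) G (by fun_prop), g1, g2, ← hA] at h3
    exact h3
  have k2 : B - a • (G * B) - b • (G * A) = 0 := by
    have h3 : cfc (fun x => h2 a b x - a * (x * h2 a b x) - b * (x * h1 a b x)) G = 0 := by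
      have : (fun x => h2 a b x - a * (x * h2 a b x) - b * (x * h1 a b x)) = fun _ : ℝ => 0 :=
        funext (e2 hb0)
      rw [this, cfc_const_zero]
    rw [cfc_sub (fun x => h2 a b x - a * (x * h2 a b x)) (fun x => b * (x * h1 a b x)) G
      (by fun_prop) (by fun_prop), cfc_sub (h2 a b) (fun x => a * (x * h2 a b x)) G
      (by fun_prop) (by fun_prop), cfc_const_mul a (fun x => x * h2 a b x) G (by fun_prop),
      cfc_const_mul b (fun x => x * h1 a b x) G (by fun_prop), g1, g2, ← hB] at h3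
    exact h3
  rw [← hA, ← hB]
  have l1 : A f - (a : ℂ) • G (A f) + (b : ℂ) • G (B f) = G f := by
    have := congrArg (fun T : H →L[ℂ] H => T f) k1
    simpa using this
  have l2 : B f - (a : ℂ) • G (B f) - (b : ℂ) • G (A f) = 0 := by
    have := congrArg (fun T : H →L[ℂ] H => T f) k2
    simpa using this
  obtain ⟨w, hw⟩ : ∃ w, w = A f + I • B f := ⟨_, rfl⟩
  have hzc : z + c = a + b * I := by
    rw [ha, hb]
    apply Complex.ext <;> simp [add_comm]
  have hw1 : w - (z + c) • G w = G f := by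
    have e : w - (z + c) • G w = (A f - (a : ℂ) • G (A f) + (b : ℂ) • G (B f)) +
        I • (B f - (a : ℂ) • G (B f) - (b : ℂ) • G (A f)) := by
      rw [hw, hzc, map_add, map_smul]
      simp only [smul_add, smul_sub, add_smul, smul_smul]
      have e1 : ((a : ℂ) + b * I) * I = I * a - b := by linear_combination (b : ℂ) * I_mul_I
      have e3 : (b : ℂ) * I = I * b := mul_comm _ _
      rw [e1, e3, sub_smul]
      abel
    rw [e, l1, l2, smul_zero, add_zero]
  rw [← hw]
  -- uniqueness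
  obtain ⟨v, hv⟩ : ∃ v, v = u - w := ⟨_, rfl⟩
  have hv1 : v = (z + c) • G v := by
    have : v - (z + c) • G v = 0 := by
      have e : v - (z + c) • G v = (u - (z + c) • G u) - (w - (z + c) • G w) := by
        rw [hv, map_sub, smul_sub]
        abel
      rw [e, hu, hw1, sub_self]
    exact sub_eq_zero.1 this
  have hv2 : ⟪G v, v⟫_ℂ = (z + c) * ⟪G v, G v⟫_ℂ := by
    rw [← inner_smul_right, ← hv1]
  have hGv : G v = 0 := by
    have h3 : (⟪G v, v⟫_ℂ).im = 0 := by
      have h4 := inner_real hG v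
      rw [← inner_self hG] at h4
      rw [← h4, ofReal_im]
    rw [hv2, inner_self_eq_norm_sq_to_K] at h3
    have h4 : ((z + c) * ((‖G v‖ : ℂ)) ^ 2).im = z.im * ‖G v‖ ^ 2 := by
      rw [← ofReal_pow, im_mul_ofReal]
      simp
    have h5 : z.im * ‖G v‖ ^ 2 = 0 := h4.symm.trans h3
    rcases mul_eq_zero.1 h5 with h6 | h6
    · exact absurd h6 hz
    · exact norm_eq_zero.1 (pow_eq_zero_iff two_ne_zero |>.1 h6)
  have hv0 : v = 0 := by rw [hv1, hGv, smul_zero]
  rw [hv] at hv0
  exact sub_eq_zero.1 hv0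

theorem frac {a b x : ℝ} (hb : b ≠ 0) :
    ((h1 a b x : ℝ) : ℂ) + I * ((h2 a b x : ℝ) : ℂ) = x / (1 - (a + b * I) * x) := by
  have hd := (dd_pos hb (a := a) x).ne'
  have hd' : ((dd a b x : ℝ) : ℂ) ≠ 0 := by exact_mod_cast hd
  have hn : (1 : ℂ) - (a + b * I) * x ≠ 0 := by
    intro h0
    apply hd'
    have : ((dd a b x : ℝ) : ℂ) = (1 - (a + b * I) * x) * (1 - (a - b * I) * x) := by
      unfold dd
      push_cast
      linear_combination ((b : ℂ) ^ 2 * x ^ 2) * I_mul_I
    rw [this, h0, zero_mul]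
  rw [eq_div_iff hn]
  have e : ((h1 a b x : ℝ) : ℂ) + I * ((h2 a b x : ℝ) : ℂ) =
      (x * (1 - a * x) + I * (b * x ^ 2)) / ((dd a b x : ℝ) : ℂ) := by
    unfold h1 h2
    push_cast
    ring
  rw [e, div_mul_eq_mul_div, div_eq_iff hd']
  unfold dd
  push_cast
  linear_combination (-(b : ℂ) ^ 2 * x ^ 3) * I_mul_I

end

/-- **Job Spectral.** -/
theorem jobSpectral : Pool.Agent.U37.LC.JobSpectral := by
  intro H _ _ _ G c hsym hpos hinj f
  have hG : IsSelfAdjoint G := by
    rw [ContinuousLinearMap.isSelfAdjoint_iff_isSymmetric]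
    exact hsym
  obtain ⟨ν, hν, h⟩ := exists_measure hG f
  have hφ : Measurable fun x : ℝ => 1 / x - c := by fun_prop
  refine ⟨ν.map fun x => 1 / x - c, inferInstance, ?_, fun z hz u hu => ?_⟩
  · rw [Measure.map_apply hφ MeasurableSet.univ, Set.preimage_univ]
    exact mass hG f h
  · rw [resolvent hG f c z hz u hu, inner_add_right, inner_smul_right]
    obtain ⟨i1, j1⟩ := h _ (h1_cont (a := c + z.re) hz)
    obtain ⟨i2, j2⟩ := h _ (h2_cont (a := c + z.re) hz)
    rw [← j1, ← j2, ← integral_complex_ofReal, ← integral_complex_ofReal, ← integral_const_mul]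
    have i1' : Integrable (fun x : ℝ => ((h1 (c + z.re) z.im x : ℝ) : ℂ)) ν := i1.ofReal
    have i2' : Integrable (fun x : ℝ => ((h2 (c + z.re) z.im x : ℝ) : ℂ)) ν := i2.ofReal
    rw [← integral_add i1' (i2'.const_mul I)]
    have hm : AEStronglyMeasurable (fun x : ℝ => 1 / ((x : ℂ) - z)) (ν.map fun x => 1 / x - c) := by
      refine (Measurable.aestronglyMeasurable ?_)
      fun_prop
    rw [integral_map hφ.aemeasurable hm]
    refine integral_congr_ae ?_
    have h0 : ∀ᵐ x ∂ν, x ≠ 0 := by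
      rw [ae_iff]
      have : {x : ℝ | ¬ x ≠ 0} = {0} := by
        ext x
        simp
      rw [this]
      exact atom hG hinj f h
    filter_upwards [h0] with x hx
    have hx' : (x : ℂ) ≠ 0 := by exact_mod_cast hx
    have e := frac (a := c + z.re) (b := z.im) (x := x) hz
    refine e.trans ?_
    have e2 : (((c + z.re : ℝ) : ℂ) + z.im * I) = c + z := by
      push_cast
      rw [add_assoc, re_add_im]
    rw [e2]
    push_cast
    have e3 : (1 : ℂ) / x - c - z = (1 - (c + z) * x) / x := by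
      field_simp
      ring
    rw [e3, one_div_div]

end Pool.Agent.U607.LC
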